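import Mathlib
import Pool.Agent.Results.MP_708b53_co.GrowthRate

/-!
# Planar configurations without large convex subsets: growth rate, uniformly in `k ≥ 6`

Explicit bounds for the number `c_k(n)` of order types of `n`-point configurations without `k` points
in convex position, with the same constants for all `k ≥ 6`:
`exp ((1/3) n log n - n) ≤ c_k(n) ≤ exp (6 n log n + 5 n)` for all `n ≥ 15`.
-/

set_option autoImplicit false

namespace Pool.Agent.Results.MP_708b53_co.UniformGrowth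

open Pool.Agent.Results.MP_708b53_co.GrowthRate

lemma c_mono {k n : ℕ} (hk : 6 ≤ k) : c 6 n ≤ c k n := by
  apply Set.ncard_le_ncard _ (classes_finite k n)
  rintro q ⟨S, h1, h2, h3⟩
  exact ⟨S, h1, by omega, h3⟩

lemma upper_real (k n : ℕ) (hn : 1 ≤ n) :
    (c k n : ℝ) ≤ Real.exp (6 * (n * Real.log n) + 5 * n) := by
  have hn' : (1 : ℝ) ≤ n := by exact_mod_cast hn
  have hn0 : (0 : ℝ) < n := by linarith
  have h1 : ((c k n : ℕ) : ℝ) ≤ (((4 * (n ^ 3 * 2) + 1) ^ (n * 2) : ℕ) : ℝ) := by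
    exact_mod_cast c_le k n
  refine h1.trans ?_
  have h2 : 4 * (n ^ 3 * 2) + 1 ≤ 9 * n ^ 3 := by
    have h4 : 1 ≤ n ^ 3 := Nat.one_le_pow _ _ hn
    omega
  have h3 : (((4 * (n ^ 3 * 2) + 1) ^ (n * 2) : ℕ) : ℝ) ≤ (((9 * n ^ 3) ^ (n * 2) : ℕ) : ℝ) := by
    exact_mod_cast Nat.pow_le_pow_left h2 _
  refine h3.trans ?_
  have h5 : Real.log 9 ≤ 5 / 2 := by
    have e1 : Real.log 9 = 2 * Real.log 3 := by
      rw [show (9 : ℝ) = 3 ^ 2 by norm_num, Real.log_pow]
      norm_num
    have e2 : Real.log 3 ≤ 5 / 4 := by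
      rw [Real.log_le_iff_le_exp (by norm_num)]
      have e3 := Real.exp_one_gt_d9
      have e4 : (1 : ℝ) + 1 / 4 ≤ Real.exp (1 / 4) := by
        have := Real.add_one_le_exp (1 / 4 : ℝ)
        linarith
      have e5 : Real.exp (5 / 4) = Real.exp 1 * Real.exp (1 / 4) := by
        rw [← Real.exp_add]; norm_num
      rw [e5]
      nlinarith
    linarith
  have h6 : (((9 * n ^ 3) ^ (n * 2) : ℕ) : ℝ) =
      Real.exp ((n * 2 : ℕ) * (Real.log 9 + 3 * Real.log n)) := by
    rw [Real.exp_nat_mul, Real.exp_add, Real.exp_log (by norm_num)]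
    have : Real.exp (3 * Real.log n) = (n : ℝ) ^ 3 := by
      have e := Real.exp_nat_mul (Real.log n) 3
      rw [Real.exp_log hn0] at e
      exact_mod_cast e
    rw [this]
    push_cast
    ring
  rw [h6]
  apply Real.exp_le_exp.mpr
  push_cast
  nlinarith

lemma lower_real (n : ℕ) (hn : 15 ≤ n) :
    Real.exp (1 / 3 * (n * Real.log n) - n) ≤ (c 6 n : ℝ) := by
  have hn' : (15 : ℝ) ≤ n := by exact_mod_cast hn
  have hn0 : (0 : ℝ) < n := by linarith
  obtain ⟨p, hp⟩ : ∃ p, p = n / 3 - 1 := ⟨_, rfl⟩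
  obtain ⟨m, hm⟩ : ∃ m, m = n - 2 * p - 2 := ⟨_, rfl⟩
  have h1 : 2 * p + m + 2 = n := by omega
  have h2 := le_c (p := p) (m := m) (by omega) (by omega)
  rw [h1] at h2
  have h3 : ((m ^ p : ℕ) : ℝ) ≤ (c 6 n : ℝ) := by exact_mod_cast h2
  refine le_trans ?_ h3
  have hm1 : (n : ℝ) / 3 ≤ m := by
    have : n ≤ 3 * m := by omega
    have : (n : ℝ) ≤ 3 * m := by exact_mod_cast this
    linarith
  have hp1 : (n : ℝ) / 3 - 5 / 3 ≤ p := by
    have : n ≤ 3 * p + 5 := by omega
    have : (n : ℝ) ≤ 3 * p + 5 := by exact_mod_cast this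
    linarith
  have hm0 : (0 : ℝ) < m := by linarith
  have hlog3 : Real.log 3 ≤ 11 / 10 := by
    rw [Real.log_le_iff_le_exp (by norm_num)]
    have e3 := Real.exp_one_gt_d9
    have e4 : (1 : ℝ) + 1 / 10 + (1 / 10) ^ 2 / 2 ≤ Real.exp (1 / 10) := by
      have := Real.quadratic_le_exp_of_nonneg (show (0 : ℝ) ≤ 1 / 10 by norm_num)
      linarith
    have e5 : Real.exp (11 / 10) = Real.exp 1 * Real.exp (1 / 10) := by
      rw [← Real.exp_add]; norm_num
    rw [e5]
    nlinarith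
  have hlogm : Real.log n - 11 / 10 ≤ Real.log m := by
    have h4 := Real.log_le_log (by positivity) hm1
    rw [Real.log_div hn0.ne' (by norm_num)] at h4
    linarith
  -- `log n ≤ 0.36 n` or so
  have hlogn : Real.log n ≤ (3 / 10 : ℝ) * n := by
    -- log n ≤ log 10 + n / 10 - 1
    have h5 : Real.log (n / 10) ≤ n / 10 - 1 := Real.log_le_sub_one_of_pos (by positivity)
    rw [Real.log_div hn0.ne' (by norm_num)] at h5
    have h6 : Real.log 10 ≤ 3 := by
      rw [Real.log_le_iff_le_exp (by norm_num)]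
      have e3 := Real.exp_one_gt_d9
      have e4 : Real.exp 3 = Real.exp 1 ^ 3 := by
        rw [← Real.exp_nat_mul]; norm_num
      rw [e4]
      have e5 : (2.7 : ℝ) ^ 3 ≤ Real.exp 1 ^ 3 :=
        pow_le_pow_left₀ (by norm_num) (by linarith) 3
      have e6 : (10 : ℝ) ≤ 2.7 ^ 3 := by norm_num
      linarith
    linarith
  have hlog1 : 11 / 10 ≤ Real.log n := by
    have h7 : Real.log 4 ≤ Real.log n := Real.log_le_log (by norm_num) (by linarith)
    have h8 : Real.log 4 = 2 * Real.log 2 := by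
      rw [show (4 : ℝ) = 2 ^ 2 by norm_num, Real.log_pow]
      norm_num
    have h9 := Real.log_two_gt_d9
    linarith
  push_cast
  rw [← Real.exp_log hm0, ← Real.exp_nat_mul]
  apply Real.exp_le_exp.mpr
  have h5 : ((n : ℝ) / 3 - 5 / 3) * (Real.log n - 11 / 10) ≤ p * Real.log m :=
    mul_le_mul hp1 hlogm (by linarith) (Nat.cast_nonneg _)
  refine le_trans ?_ h5
  have e : ((n : ℝ) / 3 - 5 / 3) * (Real.log n - 11 / 10) =
      1 / 3 * (n * Real.log n) - 11 / 30 * n - 5 / 3 * Real.log n + 11 / 6 := by ring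
  rw [e]
  nlinarith

/-- Explicit growth rate, with the same constants for all `k ≥ 6`. -/
theorem result : ∀ k n : ℕ, (classes k n).Finite ∧
    (1 ≤ n → (c k n : ℝ) ≤ Real.exp (6 * (n * Real.log n) + 5 * n)) ∧
    (6 ≤ k → 15 ≤ n → Real.exp (1 / 3 * (n * Real.log n) - n) ≤ (c k n : ℝ)) := by
  intro k n
  refine ⟨classes_finite k n, upper_real k n, fun hk hn => ?_⟩
  refine (lower_real n hn).trans ?_
  exact_mod_cast c_mono hk

end Pool.Agent.Results.MP_708b53_co.UniformGrowth
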